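import Pool.Agent.H384R3.SPk.Mix
import Pool.Agent.H384R3.SPk.Defs4
import Pool.Agent.H384R3.SPk.Lin
import Pool.Agent.H384R3.SPk.Sharp
import Pool.Agent.H224R3.SPk.TaskI
import Pool.Agent.H271R3.SPkJ
import Pool.Agent.H996R3.SPK.TaskK

set_option autoImplicit false

namespace Pool.Agent.Results.MP_120218_co.BoundedRank

open Finset Pool.Agent.H384R3.SPk

theorem sum_ind (A : Finset ℤ) : ∑ n ∈ A, ind A n = A.card := by
  rw [Finset.sum_congr rfl fun n hn => by rw [ind_apply, if_pos hn]]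
  simp

theorem energy_cs {k : ℕ} (hk : 1 ≤ k) (A : Finset ℤ) :
    (A.card : ℝ) ^ (2 * k) ≤ ((sumset k A).card : ℝ) * energy k A := by
  have h := tC k hk A (ind A) (ind_support A) (fun n => by rw [ind_apply]; split_ifs <;> norm_num)
  rwa [sum_ind, Pool.Agent.H996R3.SPK.taskK] at h

theorem single {k r : ℕ} (hk : 1 ≤ k) (g₀ : ℚ) (g : Fin r → ℚ) (hg₀ : 0 < g₀)
    (hg : ∀ i, 0 < g i) (A : Finset ℤ) (hA : ∀ a ∈ A, 0 < a)
    (hAg : ∀ a ∈ A, ∃ e : Fin r → ℤ, (a : ℚ) = g₀ * ∏ i, g i ^ e i) :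
    (energy k A : ℝ) ≤ (2 * k - 1) ^ (r * k) * (A.card : ℝ) ^ k ∧
    (A.card : ℝ) ^ k ≤ (2 * k - 1) ^ (r * k) * ((sumset k A).card : ℝ) := by
  have hk1 : (1:ℝ) ≤ k := by exact_mod_cast hk
  have hJ := Pool.Agent.H271SPk.taskJ k r hk g₀ g hg₀ hg A hA hAg
  have h1 : (energy k A : ℝ) ≤ (2 * k - 1) ^ (r * k) * (A.card : ℝ) ^ k := by
    rw [← Pool.Agent.H996R3.SPK.taskK, ← N_pow k hk]
    calc N k (ind A) ^ k ≤ ((2 * k - 1) ^ r * (A.card : ℝ)) ^ k :=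
          pow_le_pow_left₀ (N_nonneg k _) hJ k
      _ = _ := by rw [mul_pow, ← pow_mul]
  refine ⟨h1, ?_⟩
  have h2 := energy_cs hk A
  rcases A.eq_empty_or_nonempty with h0 | h0
  · subst h0
    have : ((∅ : Finset ℤ).card : ℝ) ^ k = 0 := by
      rw [Finset.card_empty, Nat.cast_zero, zero_pow (by omega)]
    rw [this]
    have : (0:ℝ) ≤ 2 * k - 1 := by linarith
    positivity
  · have hc : (0:ℝ) < (A.card : ℝ) ^ k := by
      have : (0:ℝ) < A.card := by exact_mod_cast h0.card_pos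
      positivity
    have h3 : (A.card : ℝ) ^ (2 * k) = (A.card : ℝ) ^ k * (A.card : ℝ) ^ k := by
      rw [← pow_add]; congr 1; ring
    have h4 : (A.card : ℝ) ^ k * (A.card : ℝ) ^ k ≤
        ((2 * k - 1) ^ (r * k) * ((sumset k A).card : ℝ)) * (A.card : ℝ) ^ k := by
      rw [← h3]
      refine h2.trans ?_
      calc _ ≤ ((sumset k A).card : ℝ) * ((2 * k - 1) ^ (r * k) * (A.card : ℝ) ^ k) :=
            mul_le_mul_of_nonneg_left h1 (by positivity)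
        _ = _ := by ring
    exact le_of_mul_le_mul_right h4 hc

/-- Sets of integers of bounded multiplicative rank. -/
theorem result :
    -- (1) additive energy and sumset
    (∀ k r : ℕ, 1 ≤ k → ∀ (g₀ : ℚ) (g : Fin r → ℚ), 0 < g₀ → (∀ j, 0 < g j) →
      ∀ A : Finset ℤ, (∀ a ∈ A, 0 < a) →
      (∀ a ∈ A, ∃ e : Fin r → ℤ, (a : ℚ) = g₀ * ∏ j, g j ^ e j) →
        ((((Fintype.piFinset fun _ : Fin k => A) ×ˢ (Fintype.piFinset fun _ : Fin k => A)).filter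
            fun p => ∑ i, p.1 i = ∑ i, p.2 i).card : ℝ) ≤
          (2 * k - 1) ^ (r * k) * (A.card : ℝ) ^ k ∧
        (A.card : ℝ) ^ k ≤ (2 * k - 1) ^ (r * k) *
          (((Fintype.piFinset fun _ : Fin k => A).image fun f => ∑ i, f i).card : ℝ)) ∧
    -- (2) sums of dilates of different sets
    (∀ k : ℕ, 1 ≤ k → ∀ (r : Fin k → ℕ) (g₀ : Fin k → ℚ) (g : ∀ i, Fin (r i) → ℚ),
      (∀ i, 0 < g₀ i) → (∀ i j, 0 < g i j) → ∀ l : Fin k → ℤ, (∀ i, l i ≠ 0) →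
      ∀ A : Fin k → Finset ℤ, (∀ i, ∀ a ∈ A i, 0 < a) →
      (∀ i, ∀ a ∈ A i, ∃ e : Fin (r i) → ℤ, (a : ℚ) = g₀ i * ∏ j, g i j ^ e j) →
        ∏ i, ((A i).card : ℝ) ≤ (2 * k - 1) ^ (∑ i, r i) *
          (((Fintype.piFinset A).image fun f => ∑ i, l i * f i).card : ℝ)) ∧
    -- (3) linear equations in at most `2 k` variables
    (∀ k n : ℕ, 1 ≤ k → n ≤ 2 * k → ∀ (r : Fin n → ℕ) (g₀ : Fin n → ℚ)
      (g : ∀ i, Fin (r i) → ℚ), (∀ i, 0 < g₀ i) → (∀ i j, 0 < g i j) →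
      ∀ l : Fin n → ℤ, (∀ i, l i ≠ 0) → ∀ (b : ℤ) (A : Fin n → Finset ℤ),
      (∀ i, ∀ a ∈ A i, 0 < a) →
      (∀ i, ∀ a ∈ A i, ∃ e : Fin (r i) → ℤ, (a : ℚ) = g₀ i * ∏ j, g i j ^ e j) →
        ((((Fintype.piFinset A).filter fun x => ∑ i, l i * x i = b).card : ℝ)) ^ 2 ≤
          (2 * k - 1) ^ (∑ i, r i) * ∏ i, ((A i).card : ℝ)) ∧
    -- (4) for fixed `r` the constant in (1) has the right order up to `C ^ (r k)`
    (∀ r : ℕ, 1 ≤ r → ∃ C : ℝ, 0 < C ∧ ∀ k : ℕ, 1 ≤ k → ∃ A : Finset ℤ, A.Nonempty ∧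
      (∀ a ∈ A, ∃ e : Fin r → ℕ, a = ∏ j : Fin r, (Nat.nth Nat.Prime j : ℤ) ^ e j) ∧
        (k / C) ^ (r * k) *
          (((Fintype.piFinset fun _ : Fin k => A).image fun f => ∑ i, f i).card : ℝ) ≤
            (A.card : ℝ) ^ k ∧
        (k / C) ^ (r * k) * (A.card : ℝ) ^ k ≤
          ((((Fintype.piFinset fun _ : Fin k => A) ×ˢ
            (Fintype.piFinset fun _ : Fin k => A)).filter
              fun p => ∑ i, p.1 i = ∑ i, p.2 i).card : ℝ)) := by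
  refine ⟨?_, ?_, ?_, ?_⟩
  · intro k r hk g₀ g hg₀ hg A hA hAg
    have := single hk g₀ g hg₀ hg A hA hAg
    exact this
  · intro k hk r g₀ g hg₀ hg l hl A hA hAg
    have hk1 : (1:ℝ) ≤ k := by exact_mod_cast hk
    have h1 := Pool.Agent.H224R3.SPk.taskI k hk l A (fun i => ind (A i)) hl
      (fun i => ind_support _) (fun i n => by rw [ind_apply]; split_ifs <;> norm_num)
    simp only [sum_ind] at h1
    have hJ : ∀ i, N k (ind (A i)) ≤ (2 * k - 1) ^ (r i) * ((A i).card : ℝ) := fun i =>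
      Pool.Agent.H271SPk.taskJ k (r i) hk (g₀ i) (g i) (hg₀ i) (hg i) (A i) (hA i) (hAg i)
    have h2 : ∏ i, N k (ind (A i)) ≤ (2 * k - 1) ^ (∑ i, r i) * ∏ i, ((A i).card : ℝ) := by
      rw [← Finset.prod_pow_eq_pow_sum, ← Finset.prod_mul_distrib]
      exact Finset.prod_le_prod (fun i _ => N_nonneg k _) fun i _ => hJ i
    have h3 : (∏ i, ((A i).card : ℝ)) * (∏ i, ((A i).card : ℝ)) ≤
        ((2 * k - 1) ^ (∑ i, r i) * ((dilsum l A).card : ℝ)) * ∏ i, ((A i).card : ℝ) := by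
      rw [← sq]
      refine h1.trans ?_
      calc _ ≤ ((dilsum l A).card : ℝ) *
            ((2 * k - 1) ^ (∑ i, r i) * ∏ i, ((A i).card : ℝ)) :=
            mul_le_mul_of_nonneg_left h2 (by positivity)
        _ = _ := by ring
    have h0 : (0:ℝ) ≤ ∏ i, ((A i).card : ℝ) := Finset.prod_nonneg fun i _ => by positivity
    rcases h0.eq_or_lt with h4 | h4
    · rw [← h4]
      have : (0:ℝ) ≤ 2 * k - 1 := by linarith
      positivity
    · exact le_of_mul_le_mul_right h3 h4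
  · intro k n hk hn r g₀ g hg₀ hg l hl b A hA hAg
    have hJ : ∀ i, N k (ind (A i)) ≤ (2 * k - 1) ^ (r i) * ((A i).card : ℝ) := fun i =>
      Pool.Agent.H271SPk.taskJ k (r i) hk (g₀ i) (g i) (hg₀ i) (hg i) (A i) (hA i) (hAg i)
    refine (lin_count k n hk hn l hl b A).trans ?_
    rw [← Finset.prod_pow_eq_pow_sum, ← Finset.prod_mul_distrib]
    exact Finset.prod_le_prod (fun i _ => N_nonneg k _) fun i _ => hJ i
  · intro r hr
    obtain ⟨C, hC, h⟩ := sharp r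
    have hC0 : (0:ℝ) < C := by exact_mod_cast hC
    have hC1 : (1:ℝ) ≤ C := by exact_mod_cast hC
    refine ⟨C, hC0, fun k hk => ?_⟩
    obtain ⟨A, hA, hAp, hAe, hle⟩ := h k hk
    have hk1 : (1:ℝ) ≤ k := by exact_mod_cast hk
    have hle' : (k:ℝ) ^ (r * k) * ((sumset k A).card : ℝ) ≤ C ^ k * (A.card : ℝ) ^ k := by
      exact_mod_cast hle
    have h1 : (C:ℝ) ^ k ≤ C ^ (r * k) := pow_le_pow_right₀ hC1 (by nlinarith)
    have hc : (0:ℝ) < (A.card : ℝ) ^ k := by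
      have : (0:ℝ) < A.card := by exact_mod_cast hA.card_pos
      positivity
    have h2 : ((k:ℝ) / C) ^ (r * k) * ((sumset k A).card : ℝ) ≤ (A.card : ℝ) ^ k := by
      rw [div_pow, div_mul_eq_mul_div, div_le_iff₀ (by positivity)]
      calc _ ≤ C ^ k * (A.card : ℝ) ^ k := hle'
        _ ≤ C ^ (r * k) * (A.card : ℝ) ^ k := mul_le_mul_of_nonneg_right h1 hc.le
        _ = _ := by ring
    refine ⟨A, hA, ?_, h2, ?_⟩
    · intro a ha
      obtain ⟨e, he⟩ := hAe a ha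
      refine ⟨e, ?_⟩
      rw [he]
      push_cast
      rfl
    · have h3 := energy_cs hk A
      have h4 : (A.card : ℝ) ^ k * (((k:ℝ) / C) ^ (r * k) * (A.card : ℝ) ^ k) ≤
          (A.card : ℝ) ^ k * (energy k A : ℝ) := by
        have e1 : (A.card : ℝ) ^ (2 * k) = (A.card : ℝ) ^ k * (A.card : ℝ) ^ k := by
          rw [← pow_add]; congr 1; ring
        have hkC : (0:ℝ) ≤ ((k:ℝ) / C) ^ (r * k) := by positivity
        calc _ = ((k:ℝ) / C) ^ (r * k) * (A.card : ℝ) ^ (2 * k) := by rw [e1]; ring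
          _ ≤ ((k:ℝ) / C) ^ (r * k) * (((sumset k A).card : ℝ) * energy k A) :=
            mul_le_mul_of_nonneg_left h3 hkC
          _ = (((k:ℝ) / C) ^ (r * k) * ((sumset k A).card : ℝ)) * energy k A := by ring
          _ ≤ _ := mul_le_mul_of_nonneg_right h2 (by positivity)
      exact le_of_mul_le_mul_left h4 hc

end Pool.Agent.Results.MP_120218_co.BoundedRank
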