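import Mathlib
import Pool.Agent.H985.SPPopK
import Pool.Agent.Results.MP_120218_co.FullRange

set_option autoImplicit false

/-!
# The `k`-fold sum-product conjecture for sets of integers with few popular prime factors

Let `B` be a finite set of integers. A prime `p` is *`K`-unpopular* in an element `b` of `B` if the
exponent of `p` in `b` differs from some `e` which is the exponent of `p` in all but at most `K`
nonzero elements of `B` (for instance, if `p` divides `b` and at most `K` elements of `B`).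

If every nonzero element of `B` either has a `K`-unpopular prime or has at most `m` primes in which
its exponent differs from that of a fixed nonzero integer `D` (for `D = 1`: at most `m` prime
factors), then for every `k` and every `A ⊇ B` the maximum of the numbers of `k`-fold sums and of
`k`-fold products of `A` is at least `|B| ^ k` times the minimum of `1 / (8 (32 k K) ^ (k - 1))` and
`exp (- 110 √(k ^ 3 m log |B|)) / 2 ^ k`. Elements with at least one unpopular prime are not
restricted at all: they may have any number of prime factors, popular or not.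

The proof: if many elements have an unpopular prime, then about `|B| / K` of them have a prime of
their own which half of the elements avoid, and the products of one of the latter and `k - 1` of the
former are distinct; otherwise the theorem `FullRange` of the starting files applies to the elements
with few primes.
-/

namespace Pool.Agent.Results.MP_120218_co.PopularPrimes

open Pool.Agent.H985.SPPop Pool.Agent.H985.SPPopK

theorem main (k : ℕ) (hk : 1 ≤ k) (A B : Finset ℤ) (D K m : ℕ) (hBA : B ⊆ A) (hN : 16 ≤ B.card)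
    (hD : D ≠ 0) (hK : 1 ≤ K)
    (h : ∀ b ∈ B, b ≠ 0 →
      (∃ p e : ℕ, p.Prime ∧ b.natAbs.factorization p ≠ e ∧
        (B.filter fun a => a ≠ 0 ∧ a.natAbs.factorization p ≠ e).card ≤ K) ∨
      ((b.natAbs.primeFactors ∪ D.primeFactors).filter fun p =>
        b.natAbs.factorization p ≠ D.factorization p).card ≤ m) :
    (B.card : ℝ) ^ k * min (1 / (8 * (32 * (k : ℝ) * (K : ℝ)) ^ (k - 1)))
      (Real.exp (-(110 * Real.sqrt ((k : ℝ) ^ 3 * m * Real.log B.card))) / 2 ^ k) ≤
      max
        (((Fintype.piFinset (fun _ : Fin k => A)).image (fun f : Fin k → ℤ => ∑ i, f i)).card : ℝ)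
        (((Fintype.piFinset (fun _ : Fin k => A)).image
          (fun f : Fin k → ℤ => ∏ i, f i)).card : ℝ) := by
  classical
  set N := B.card with hNd
  have hNr : (16 : ℝ) ≤ N := by exact_mod_cast hN
  have hKr : (1 : ℝ) ≤ K := by exact_mod_cast hK
  have hkr : (1 : ℝ) ≤ k := by exact_mod_cast hk
  let Pr : ℤ → Prop := fun b => ∃ p e : ℕ, p.Prime ∧ b.natAbs.factorization p ≠ e ∧
    (B.filter fun a => a ≠ 0 ∧ a.natAbs.factorization p ≠ e).card ≤ K
  let B' := B.erase 0
  let B1 := B'.filter Pr
  let B2 := B'.filter (fun b => ¬ Pr b)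
  have hB' : N - 1 ≤ B'.card := Finset.pred_card_le_card_erase
  have hsum : B1.card + B2.card = B'.card := Finset.card_filter_add_card_filter_not _
  have hB1B : B1 ⊆ B := (Finset.filter_subset _ _).trans (Finset.erase_subset _ _)
  have hB2B : B2 ⊆ B := (Finset.filter_subset _ _).trans (Finset.erase_subset _ _)
  by_cases hc : N ≤ 4 * B1.card
  · -- many elements with an unpopular prime
    have hne : B1.Nonempty := Finset.card_pos.1 (by omega)
    have h1 := pow_le A B1 (hB1B.trans hBA)
      (fun a ha => Finset.ne_of_mem_erase (Finset.mem_filter.1 ha).1) hne K hK (by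
        intro c hc
        obtain ⟨p, e, _, hp1, hp2⟩ := (Finset.mem_filter.1 hc).2
        refine ⟨p, e, hp1, le_trans (Finset.card_le_card ?_) hp2⟩
        intro a ha
        have ha' := Finset.mem_filter.1 ha
        exact Finset.mem_filter.2 ⟨hB1B ha'.1,
          Finset.ne_of_mem_erase (Finset.mem_filter.1 ha'.1).1, ha'.2⟩) k hk
    have h4 : (N : ℝ) ≤ 4 * B1.card := by exact_mod_cast hc
    have h5 : (N : ℝ) / (32 * (k : ℝ) * (K : ℝ)) ≤ (B1.card : ℝ) / (8 * k * K) := by
      rw [div_le_div_iff₀ (by positivity) (by positivity)]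
      have h6 : (N : ℝ) * (8 * k * K) ≤ (4 * B1.card) * (8 * k * K) :=
        mul_le_mul_of_nonneg_right h4 (by positivity)
      linarith
    have h6 : (N : ℝ) / 8 ≤ (B1.card : ℝ) / 2 := by linarith
    have h7 : (N : ℝ) ^ k = N * (N : ℝ) ^ (k - 1) := by
      rw [← pow_succ']
      congr 1
      omega
    calc (N : ℝ) ^ k * min (1 / (8 * (32 * (k : ℝ) * (K : ℝ)) ^ (k - 1)))
          (Real.exp (-(110 * Real.sqrt ((k : ℝ) ^ 3 * m * Real.log N))) / 2 ^ k)
        ≤ (N : ℝ) ^ k * (1 / (8 * (32 * (k : ℝ) * (K : ℝ)) ^ (k - 1))) :=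
          mul_le_mul_of_nonneg_left (min_le_left _ _) (by positivity)
      _ = (N : ℝ) / 8 * ((N : ℝ) / (32 * (k : ℝ) * (K : ℝ))) ^ (k - 1) := by
          rw [h7, div_pow]
          field_simp
      _ ≤ (B1.card : ℝ) / 2 * ((B1.card : ℝ) / (8 * k * K)) ^ (k - 1) :=
          mul_le_mul h6 (pow_le_pow_left₀ (by positivity) h5 _) (by positivity) (by positivity)
      _ ≤ _ := h1.trans (le_max_right _ _)
  · -- many elements with few primes
    have h1 : N ≤ 2 * B2.card := by omega
    have h8 : 8 ≤ B2.card := by omega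
    have hm2 : ∀ b ∈ B2, ((b.natAbs.primeFactors ∪ D.primeFactors).filter fun p =>
        b.natAbs.factorization p ≠ D.factorization p).card ≤ m := by
      intro b hb
      have hb' := Finset.mem_filter.1 hb
      exact (h b (hB2B hb) (Finset.ne_of_mem_erase hb'.1)).resolve_left hb'.2
    have hm : 1 ≤ m := by
      by_contra hm0
      have hm0' : m = 0 := by omega
      -- all elements of `B2` are `± D`
      have hsub : B2 ⊆ {(D : ℤ), -(D : ℤ)} := by
        intro b hb
        have hb' := Finset.mem_filter.1 hb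
        have hb0 : b ≠ 0 := Finset.ne_of_mem_erase hb'.1
        have h2 := hm2 b hb
        rw [hm0', Nat.le_zero, Finset.card_eq_zero] at h2
        have h3 : b.natAbs = D := by
          refine Nat.eq_of_factorization_eq (Int.natAbs_ne_zero.2 hb0) hD (fun p => ?_)
          by_contra hne
          have h4 : p ∈ b.natAbs.primeFactors ∪ D.primeFactors := by
            by_contra h5
            rw [Finset.mem_union, not_or] at h5
            have h6 : b.natAbs.factorization p = 0 := by
              rw [← Finsupp.notMem_support_iff, Nat.support_factorization]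
              exact h5.1
            have h7 : D.factorization p = 0 := by
              rw [← Finsupp.notMem_support_iff, Nat.support_factorization]
              exact h5.2
            exact hne (h6.trans h7.symm)
          have h5 : p ∈ (b.natAbs.primeFactors ∪ D.primeFactors).filter fun p =>
              b.natAbs.factorization p ≠ D.factorization p :=
            Finset.mem_filter.2 ⟨h4, hne⟩
          rw [h2] at h5
          simp at h5
        rw [Finset.mem_insert, Finset.mem_singleton]
        omega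
      have h2 := (Finset.card_le_card hsub).trans Finset.card_le_two
      omega
    have h2 := Pool.Agent.Results.MP_120218_co.FullRange.result k hk A B2 (hB2B.trans hBA)
      (by omega) D hD m hm (fun b hb _ => hm2 b hb)
    have h3 : (B2.card : ℝ) ≤ N := by exact_mod_cast Finset.card_le_card hB2B
    have h4 : (N : ℝ) ≤ 2 * B2.card := by exact_mod_cast h1
    have h5 : (0 : ℝ) < B2.card := by
      have : 0 < B2.card := by omega
      exact_mod_cast this
    have h6 : Real.exp (-(110 * Real.sqrt ((k : ℝ) ^ 3 * m * Real.log N))) ≤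
        Real.exp (-(110 * Real.sqrt ((k : ℝ) ^ 3 * m * Real.log B2.card))) := by
      rw [Real.exp_le_exp, neg_le_neg_iff]
      refine mul_le_mul_of_nonneg_left (Real.sqrt_le_sqrt ?_) (by norm_num)
      exact mul_le_mul_of_nonneg_left (Real.log_le_log h5 h3) (by positivity)
    have h7 : (N : ℝ) ^ k ≤ 2 ^ k * (B2.card : ℝ) ^ k := by
      rw [← mul_pow]
      exact pow_le_pow_left₀ (by positivity) h4 k
    calc (N : ℝ) ^ k * min (1 / (8 * (32 * (k : ℝ) * (K : ℝ)) ^ (k - 1)))
          (Real.exp (-(110 * Real.sqrt ((k : ℝ) ^ 3 * m * Real.log N))) / 2 ^ k)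
        ≤ (N : ℝ) ^ k * (Real.exp (-(110 * Real.sqrt ((k : ℝ) ^ 3 * m * Real.log N))) / 2 ^ k) :=
          mul_le_mul_of_nonneg_left (min_le_right _ _) (by positivity)
      _ ≤ (2 ^ k * (B2.card : ℝ) ^ k) *
          (Real.exp (-(110 * Real.sqrt ((k : ℝ) ^ 3 * m * Real.log B2.card))) / 2 ^ k) := by
          gcongr
      _ = (B2.card : ℝ) ^ k *
          Real.exp (-(110 * Real.sqrt ((k : ℝ) ^ 3 * m * Real.log B2.card))) := by
          field_simp
      _ ≤ _ := h2

/-- The `k`-fold sum-product conjecture for sets of integers whose elements have an unpopular prime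
or few primes. -/
theorem result :
    (∀ k : ℕ, 1 ≤ k → ∀ (A B : Finset ℤ) (D K m : ℕ), B ⊆ A → 16 ≤ B.card → D ≠ 0 → 1 ≤ K →
      (∀ b ∈ B, b ≠ 0 →
        (∃ p e : ℕ, p.Prime ∧ b.natAbs.factorization p ≠ e ∧
          (B.filter fun a => a ≠ 0 ∧ a.natAbs.factorization p ≠ e).card ≤ K) ∨
        ((b.natAbs.primeFactors ∪ D.primeFactors).filter fun p =>
          b.natAbs.factorization p ≠ D.factorization p).card ≤ m) →
      (B.card : ℝ) ^ k * min (1 / (8 * (32 * (k : ℝ) * (K : ℝ)) ^ (k - 1)))
        (Real.exp (-(110 * Real.sqrt ((k : ℝ) ^ 3 * m * Real.log B.card))) / 2 ^ k) ≤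
        max
          (((Fintype.piFinset (fun _ : Fin k => A)).image
            (fun f : Fin k → ℤ => ∑ i, f i)).card : ℝ)
          (((Fintype.piFinset (fun _ : Fin k => A)).image
            (fun f : Fin k → ℤ => ∏ i, f i)).card : ℝ)) ∧
    (∀ k : ℕ, 2 ≤ k → ∀ ε : ℝ, 0 < ε → ∀ (A B : Finset ℤ) (D : ℕ), B ⊆ A → 16 ≤ B.card → D ≠ 0 →
      (∀ b ∈ B, b ≠ 0 →
        (∃ p e : ℕ, p.Prime ∧ b.natAbs.factorization p ≠ e ∧
          ((B.filter fun a => a ≠ 0 ∧ a.natAbs.factorization p ≠ e).card : ℝ) ≤
              (B.card : ℝ) ^ (ε / ((k : ℝ) - 1))) ∨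
        (((b.natAbs.primeFactors ∪ D.primeFactors).filter fun p =>
          b.natAbs.factorization p ≠ D.factorization p).card : ℝ) ≤
          (ε / 110) ^ 2 / (k : ℝ) ^ 3 * Real.log B.card) →
      (B.card : ℝ) ^ ((k : ℝ) - ε) ≤ (32 * (k : ℝ)) ^ k *
        max
          (((Fintype.piFinset (fun _ : Fin k => A)).image
            (fun f : Fin k → ℤ => ∑ i, f i)).card : ℝ)
          (((Fintype.piFinset (fun _ : Fin k => A)).image
            (fun f : Fin k → ℤ => ∏ i, f i)).card : ℝ)) := by
  refine ⟨fun k hk A B D K m hBA hN hD hK h => main k hk A B D K m hBA hN hD hK h, ?_⟩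
  intro k hk ε hε A B D hBA hN hD h
  have hkr : (2 : ℝ) ≤ k := by exact_mod_cast hk
  have hk1 : (0 : ℝ) < (k : ℝ) - 1 := by linarith
  have hkc : ((k - 1 : ℕ) : ℝ) = (k : ℝ) - 1 := by
    rw [Nat.cast_sub (by omega), Nat.cast_one]
  have hNr : (16 : ℝ) ≤ B.card := by exact_mod_cast hN
  have hN0 : (0 : ℝ) < B.card := by linarith
  have hL0 : 0 ≤ Real.log B.card := Real.log_nonneg (by linarith)
  have hpow1 : (1 : ℝ) ≤ (B.card : ℝ) ^ (ε / ((k : ℝ) - 1)) :=
    Real.one_le_rpow (by linarith) (by positivity)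
  set K : ℕ := ⌊(B.card : ℝ) ^ (ε / ((k : ℝ) - 1))⌋₊ with hKd
  set m : ℕ := ⌊(ε / 110) ^ 2 / (k : ℝ) ^ 3 * Real.log B.card⌋₊ with hmd
  have hK1 : 1 ≤ K := (Nat.one_le_floor_iff _).2 hpow1
  have hKle : (K : ℝ) ≤ (B.card : ℝ) ^ (ε / ((k : ℝ) - 1)) := Nat.floor_le (by linarith)
  have hmle : (m : ℝ) ≤ (ε / 110) ^ 2 / (k : ℝ) ^ 3 * Real.log B.card :=
    Nat.floor_le (by positivity)
  have h1 := main k (by omega) A B D K m hBA hN hD hK1 (by
    intro b hb hb0
    rcases h b hb hb0 with ⟨p, e, hp, hp1, hp2⟩ | h2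
    · exact Or.inl ⟨p, e, hp, hp1, Nat.le_floor hp2⟩
    · exact Or.inr (Nat.le_floor h2))
  have hK0 : (0 : ℝ) < K := by exact_mod_cast hK1
  have hNe : (0 : ℝ) < (B.card : ℝ) ^ (-ε) := Real.rpow_pos_of_pos hN0 _
  have hNe' : (0 : ℝ) < (B.card : ℝ) ^ ε := Real.rpow_pos_of_pos hN0 _
  have h2 : (B.card : ℝ) ^ (-ε) / (32 * (k : ℝ)) ^ k ≤
      min (1 / (8 * (32 * (k : ℝ) * (K : ℝ)) ^ (k - 1)))
        (Real.exp (-(110 * Real.sqrt ((k : ℝ) ^ 3 * m * Real.log B.card))) / 2 ^ k) := by
    refine le_min ?_ ?_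
    · have h3 : (K : ℝ) ^ (k - 1) ≤ (B.card : ℝ) ^ ε := by
        calc (K : ℝ) ^ (k - 1) ≤ ((B.card : ℝ) ^ (ε / ((k : ℝ) - 1))) ^ (k - 1) :=
              pow_le_pow_left₀ hK0.le hKle _
          _ = (B.card : ℝ) ^ ε := by
              rw [← Real.rpow_natCast, ← Real.rpow_mul hN0.le, hkc]
              congr 1
              field_simp
      have h4 : 8 * (32 * (k : ℝ)) ^ (k - 1) ≤ (32 * (k : ℝ)) ^ k := by
        have h5 : (32 * (k : ℝ)) ^ k = 32 * (k : ℝ) * (32 * (k : ℝ)) ^ (k - 1) := by
          rw [← pow_succ']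
          congr 1
          omega
        rw [h5]
        exact mul_le_mul_of_nonneg_right (by linarith) (by positivity)
      rw [mul_pow (32 * (k : ℝ)) (K : ℝ) (k - 1), Real.rpow_neg hN0.le,
        div_le_div_iff₀ (by positivity) (by positivity), one_mul]
      calc ((B.card : ℝ) ^ ε)⁻¹ * (8 * ((32 * (k : ℝ)) ^ (k - 1) * (K : ℝ) ^ (k - 1)))
          = (((B.card : ℝ) ^ ε)⁻¹ * (K : ℝ) ^ (k - 1)) * (8 * (32 * (k : ℝ)) ^ (k - 1)) := by
            ring
        _ ≤ 1 * (32 * (k : ℝ)) ^ k := by
            refine mul_le_mul ?_ h4 (by positivity) (by norm_num)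
            rw [inv_mul_le_iff₀ hNe']
            linarith
        _ = _ := one_mul _
    · have h3 : Real.sqrt ((k : ℝ) ^ 3 * m * Real.log B.card) ≤ ε / 110 * Real.log B.card := by
        rw [Real.sqrt_le_left (by positivity)]
        calc (k : ℝ) ^ 3 * m * Real.log B.card
            ≤ (k : ℝ) ^ 3 * ((ε / 110) ^ 2 / (k : ℝ) ^ 3 * Real.log B.card) * Real.log B.card := by
              gcongr
          _ = _ := by
              field_simp
      have h4 : (B.card : ℝ) ^ (-ε) ≤
          Real.exp (-(110 * Real.sqrt ((k : ℝ) ^ 3 * m * Real.log B.card))) := by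
        rw [Real.rpow_def_of_pos hN0, Real.exp_le_exp]
        nlinarith
      have h5 : (2 : ℝ) ^ k ≤ (32 * (k : ℝ)) ^ k :=
        pow_le_pow_left₀ (by norm_num) (by linarith) k
      exact div_le_div₀ (Real.exp_pos _).le h4 (by positivity) h5
  have h3 : (B.card : ℝ) ^ ((k : ℝ) - ε) = (B.card : ℝ) ^ k * (B.card : ℝ) ^ (-ε) := by
    rw [sub_eq_add_neg, Real.rpow_add hN0, Real.rpow_natCast]
  rw [h3]
  have h4 := mul_le_mul_of_nonneg_left h2 (by positivity : (0 : ℝ) ≤ (B.card : ℝ) ^ k)
  have h5 := h4.trans h1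
  rw [← mul_div_assoc, div_le_iff₀ (by positivity)] at h5
  linarith

end Pool.Agent.Results.MP_120218_co.PopularPrimes
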