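import Pool.Agent.H384R3.SPk.Mix
import Pool.Agent.H201R3.SPk.G
import Pool.Agent.H293R3.SPk.F
import Pool.Agent.H449R3.SPkH
import Pool.Agent.H224R3.SPk.TaskI

set_option autoImplicit false

namespace Pool.Agent.Results.MP_120218_co.SumsVersusIteratedProducts

open Finset Pool.Agent.H384R3.SPk

theorem half_log (k N : ℕ) (hk : 2 ≤ k) (hN : (2 * k) ^ k ≤ N) (A : Finset ℤ) (hA : A.Nonempty) :
    ((A.card : ℝ) / 3) ^ (((k : ℝ) + 1) / 2) ≤
      max ((sumset N A).card : ℝ) ((prodset fun _ : Fin N => A).card : ℝ) := by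
  have hk2 : (2:ℝ) ≤ k := by exact_mod_cast hk
  have hk0 : (0:ℝ) < k := by linarith
  have hc0 : (0:ℝ) < 2 * k - 1 := by linarith
  have hkN : k ≤ N := by
    have h1 : k ≤ (2 * k) ^ 1 := by rw [pow_one]; omega
    have h2 : (2 * k) ^ 1 ≤ (2 * k) ^ k := Nat.pow_le_pow_right (by omega) (by omega)
    omega
  have hN2 : 2 ≤ N := by omega
  have hNr : (2 * (k:ℝ)) ^ k ≤ N := by exact_mod_cast hN
  have hN1 : (2:ℝ) ≤ N := by exact_mod_cast hN2
  -- `(2k)^k ≥ (3/2) (2k-1)^k`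
  have h3 : 3 / 2 * (2 * (k:ℝ) - 1) ^ k ≤ N := by
    refine le_trans ?_ hNr
    have h4 := one_add_mul_le_pow (a := 1 / (2 * (k:ℝ) - 1)) (by
      have : (0:ℝ) ≤ 1 / (2 * k - 1) := by positivity
      linarith) k
    have h5 : (3:ℝ) / 2 ≤ 1 + k * (1 / (2 * (k:ℝ) - 1)) := by
      have : (1:ℝ) / 2 ≤ k * (1 / (2 * (k:ℝ) - 1)) := by
        rw [mul_one_div, div_le_div_iff₀ (by norm_num) hc0]; linarith
      linarith
    have h6 : (2 * (k:ℝ)) ^ k = (1 + 1 / (2 * (k:ℝ) - 1)) ^ k * (2 * (k:ℝ) - 1) ^ k := by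
      rw [← mul_pow]; congr 1; field_simp; ring
    rw [h6]
    exact mul_le_mul_of_nonneg_right (h5.trans h4) (by positivity)
  have h7 : (2 * (k:ℝ) - 1) ^ k ≤ (N : ℝ) - (N - 1) / (2 * k - 1) := by
    have : ((N:ℝ) - 1) / (2 * k - 1) ≤ N / 3 := by
      rw [div_le_div_iff₀ hc0 (by norm_num)]
      nlinarith
    linarith
  have hcond : (2 * k - 1 : ℝ) ≤ ((N : ℝ) - (N - 1) / (2 * k - 1)) ^ ((1:ℝ) / k) := by
    have h8 := Real.rpow_le_rpow (by positivity) h7 (show (0:ℝ) ≤ 1 / k by positivity)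
    rw [← Real.rpow_natCast, ← Real.rpow_mul hc0.le] at h8
    have : (k:ℝ) * (1 / k) = 1 := by field_simp
    rwa [this, Real.rpow_one] at h8
  have hm := max_all Pool.Agent.H201R3.SPk.taskG Pool.Agent.H449R3.SPkH.taskH hk hN2 hkN
    (by positivity) hcond A hA
  set X : ℝ := max ((sumset N A).card : ℝ) ((prodset fun _ : Fin N => A).card : ℝ) with hX
  have hX0 : 0 ≤ X := le_max_of_le_left (by positivity)
  have e1 : (k:ℝ) * (1 + 1 / k) = k + 1 := by field_simp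
  have e2 : 1 + (k:ℝ) * (1 / k) = 2 := by field_simp; norm_num
  rw [e1, e2] at hm
  have h9 : ((A.card : ℝ) / 3) ^ ((k:ℝ) + 1) ≤ X ^ (2:ℝ) := by
    rw [Real.div_rpow (by positivity) (by norm_num), div_le_iff₀ (by positivity), mul_comm]
    exact hm
  have h10 := Real.rpow_le_rpow (by positivity) h9 (show (0:ℝ) ≤ 1 / 2 by norm_num)
  rw [← Real.rpow_mul (by positivity), ← Real.rpow_mul hX0] at h10
  have e3 : ((k:ℝ) + 1) * (1 / 2) = (k + 1) / 2 := by ring
  have e4 : (2:ℝ) * (1 / 2) = 1 := by norm_num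
  rwa [e3, e4, Real.rpow_one] at h10

/-- Sums versus iterated products. -/
theorem result :
    -- (1) one set of positive integers, and one arbitrary finite set of integers
    (∀ (k n : ℕ) (β : ℝ), 2 ≤ k → 2 ≤ n → 0 < β →
      (2 * k - 1 : ℝ) ≤ ((n : ℝ) - (n - 1) / (2 * k - 1)) ^ β →
      ∀ A : Finset ℤ, A.Nonempty →
        ((∀ a ∈ A, 0 < a) →
          (A.card : ℝ) ^ ((k : ℝ) * (1 + β)) ≤
            (((Fintype.piFinset fun _ : Fin k => A).image fun f => ∑ i, f i).card : ℝ) *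
            (((Fintype.piFinset fun _ : Fin n => A).image fun f => ∏ i, f i).card : ℝ) ^
              ((k : ℝ) * β)) ∧
        (A.card : ℝ) ^ ((k : ℝ) * (1 + β)) ≤ 3 ^ ((k : ℝ) * (1 + β)) *
          ((((Fintype.piFinset fun _ : Fin k => A).image fun f => ∑ i, f i).card : ℝ) *
            (((Fintype.piFinset fun _ : Fin n => A).image fun f => ∏ i, f i).card : ℝ) ^
              ((k : ℝ) * β))) ∧
    -- (2) sums of dilates of different sets of positive integers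
    (∀ (k m : ℕ) (β : ℝ), 2 ≤ k → 1 ≤ m →
      (2 * k - 1 : ℝ) ≤ ((m * k : ℝ) - (m * k - 1) / (2 * k - 1)) ^ β →
      ∀ l : Fin k → ℤ, (∀ i, l i ≠ 0) →
      ∀ A : Fin k → Finset ℤ, (∀ i, (A i).Nonempty) → (∀ i, ∀ a ∈ A i, 0 < a) →
        ∏ i, ((A i).card : ℝ) ^ (1 + β) ≤
          (((Fintype.piFinset A).image fun f => ∑ i, l i * f i).card : ℝ) *
          (((Fintype.piFinset fun p : Fin m × Fin k => A p.2).image fun f => ∏ p, f p).card : ℝ) ^
            ((k : ℝ) * β)) ∧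
    -- (3) the maximum of `|NA|` and `|A^N|`
    (∀ k N : ℕ, 2 ≤ k → (2 * k) ^ k ≤ N → ∀ A : Finset ℤ, A.Nonempty →
      ((A.card : ℝ) / 3) ^ (((k : ℝ) + 1) / 2) ≤
        max (((Fintype.piFinset fun _ : Fin N => A).image fun f => ∑ i, f i).card : ℝ)
          (((Fintype.piFinset fun _ : Fin N => A).image fun f => ∏ i, f i).card : ℝ)) ∧
    -- (4) almost maximal `k`-fold sumset, or large iterated product set
    (∀ k : ℕ, 1 ≤ k → ∀ ε s : ℝ, 0 < ε → ∃ n : ℕ, 2 ≤ n ∧ ∃ c : ℝ, 0 < c ∧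
      ∀ A : Finset ℤ, A.Nonempty →
        c * (A.card : ℝ) ^ ((k : ℝ) - ε) ≤
          (((Fintype.piFinset fun _ : Fin k => A).image fun f => ∑ i, f i).card : ℝ) ∨
        (A.card : ℝ) ^ s ≤
          (((Fintype.piFinset fun _ : Fin n => A).image fun f => ∏ i, f i).card : ℝ)) ∧
    -- (5) the exponent in (1) is nearly optimal
    (∀ k n : ℕ, 2 ≤ k → 2 ≤ n → ∀ β : ℝ, 0 < β →
      (∀ A : Finset ℤ, A.Nonempty → (∀ a ∈ A, 0 < a) →
        (A.card : ℝ) ^ ((k : ℝ) * (1 + β)) ≤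
          (((Fintype.piFinset fun _ : Fin k => A).image fun f => ∑ i, f i).card : ℝ) *
          (((Fintype.piFinset fun _ : Fin n => A).image fun f => ∏ i, f i).card : ℝ) ^
            ((k : ℝ) * β)) →
      (k.factorial : ℝ) ≤ (n : ℝ) ^ ((k : ℝ) * β)) := by
  refine ⟨?_, ?_, ?_, ?_, ?_⟩
  · intro k n β hk hn hβ h A hA
    exact ⟨fun hAp => single hk hn h A hA hAp,
      single_all Pool.Agent.H201R3.SPk.taskG hk hn hβ.le h A hA⟩
  · intro k m β hk hm h l hl A hA hAp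
    exact mix Pool.Agent.H224R3.SPk.taskI hk hm h l hl A hA hAp
  · intro k N hk hN A hA
    exact half_log k N hk hN A hA
  · intro k hk ε s hε
    exact dichotomy Pool.Agent.H201R3.SPk.taskG k hk ε s hε
  · exact Pool.Agent.H293R3.SPk.taskF

end Pool.Agent.Results.MP_120218_co.SumsVersusIteratedProducts
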